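import Pool.Agent.H5.EG.Spec2

set_option autoImplicit false

/-! # MP_98cfca_co, core2 : bounds at the scale `X` from bounds at the outer scale `S` -/

namespace Pool.Agent.H603.EG

open PowerSeries Pool.Agent.H5.EG

theorem tau_le (K Λ X : ℕ) (S : ℝ) (hK : 4 * K ≤ Λ) (hX : Λ ^ 4 ≤ X) (hX1 : 1 ≤ X) (hS1 : 1 ≤ S)
    (hS : S ≤ (X : ℝ) ^ K) : (Λ : ℝ) ^ 2 * Real.log S ≤ X := by
  obtain ⟨y, hy0, hy4⟩ : ∃ y : ℝ, 0 < y ∧ y ^ 4 = X := by
    have hX0 : (0 : ℝ) < X := by exact_mod_cast hX1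
    refine ⟨Real.sqrt (Real.sqrt X), Real.sqrt_pos.2 (Real.sqrt_pos.2 hX0), ?_⟩
    have e1 : Real.sqrt (Real.sqrt X) ^ 2 = Real.sqrt X := Real.sq_sqrt (Real.sqrt_nonneg _)
    have e2 : Real.sqrt X ^ 2 = X := Real.sq_sqrt hX0.le
    calc Real.sqrt (Real.sqrt X) ^ 4 = (Real.sqrt (Real.sqrt X) ^ 2) ^ 2 := by ring
      _ = (X : ℝ) := by rw [e1, e2]
  have hΛy : (Λ : ℝ) ≤ y := by
    refine le_of_pow_le_pow_left₀ (n := 4) (by norm_num) hy0.le ?_
    rw [hy4]
    exact_mod_cast hX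
  have hlog : Real.log S ≤ Λ * y := by
    have h1 : Real.log S ≤ Real.log ((X : ℝ) ^ K) := Real.log_le_log (by linarith) hS
    have h2 : Real.log ((X : ℝ) ^ K) = K * (4 * Real.log y) := by
      rw [Real.log_pow, ← hy4, Real.log_pow]
      norm_num
    have h3 : Real.log y ≤ y := by
      have := Real.log_le_sub_one_of_pos hy0
      linarith
    have h4 : (4 * K : ℝ) ≤ Λ := by exact_mod_cast hK
    have h5 : (0 : ℝ) ≤ K := Nat.cast_nonneg K
    calc Real.log S ≤ K * (4 * Real.log y) := h1.trans h2.le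
      _ ≤ K * (4 * y) := by gcongr
      _ = (4 * K) * y := by ring
      _ ≤ Λ * y := by gcongr
  have hΛ0 : (0 : ℝ) ≤ Λ := Nat.cast_nonneg Λ
  calc (Λ : ℝ) ^ 2 * Real.log S ≤ (Λ : ℝ) ^ 2 * (Λ * y) := by gcongr
    _ ≤ y ^ 2 * (y * y) := by gcongr
    _ = X := by rw [← hy4]; ring

theorem rad_gg (F : Fn) : Rad (toC (gg F.s)) := by
  obtain ⟨H, hH⟩ := F.bd
  intro ρ h0 h1
  refine Summable.of_nonneg_of_le (fun n => by positivity) (fun n => ?_)
    ((summable_geometric_of_lt_one h0 h1).mul_left H)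
  refine mul_le_mul_of_nonneg_right ?_ (pow_nonneg h0 n)
  rw [coeff_toC, gg, PowerSeries.coeff_mk, Complex.norm_intCast]
  push_cast
  rw [abs_neg]
  exact hH n

theorem rad_G (g : PowerSeries ℂ) (hg : Rad g) (l : ℕ) : Rad (G g l) := by
  induction l with
  | zero => exact Rad.one
  | succ l ih => exact ih.D.add (hg.mul ih)

/-- `1 / X ≤ (1 - 1 / X) ^ k` for `k < X` -/
theorem bern (X k : ℕ) (hX : 2 ≤ X) (hk : k < X) : 1 / (X : ℝ) ≤ (1 - 1 / (X : ℝ)) ^ k := by
  have hX0 : (0 : ℝ) < X := by positivity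
  have h1 : (1 : ℝ) / X ≤ 1 := by
    rw [div_le_one hX0]
    have : 1 ≤ X := by omega
    exact_mod_cast this
  have h2 := one_add_mul_le_pow (a := -(1 / (X : ℝ))) (by linarith) k
  have h3 : (k : ℝ) + 1 ≤ X := by exact_mod_cast hk
  have h4 : 1 / (X : ℝ) ≤ 1 + (k : ℝ) * -(1 / (X : ℝ)) := by
    have : (k + 1) / (X : ℝ) ≤ 1 := by rw [div_le_one hX0]; exact h3
    have e : (k + 1) / (X : ℝ) = 1 / X + k * (1 / X) := by ring
    rw [e] at this
    linarith
  have e : 1 - 1 / (X : ℝ) = 1 + -(1 / (X : ℝ)) := by ring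
  rw [e]
  exact h4.trans h2

theorem core2 (h1 : S_fcoef) (h2 : S_Gbound) (h3 : S_maj) (h4 : S_cauchy) : S_core2 := by
  intro B K
  refine ⟨4 * K + 4, 2 * B + (2 * B).factorial + 3 * (2 * B + 1), ?_⟩
  intro Λ hΛ X S hX hS1 hS2
  have hΛX : Λ ≤ X := le_trans (Nat.le_self_pow (by norm_num) Λ) hX
  have hX4 : 4 ≤ X := by omega
  have hXr : (4 : ℝ) ≤ X := by exact_mod_cast hX4
  have hX0 : (0 : ℝ) < X := by linarith
  have hS0 : (0 : ℝ) < S := lt_of_lt_of_le (by positivity) hS1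
  -- 1 / S is small
  have hXS : 4 * (X : ℝ) ^ 2 ≤ S := by
    refine le_trans ?_ hS1
    have e : (X : ℝ) ^ 6 = X ^ 2 * (X ^ 2 * X ^ 2) := by ring
    have e1 : (16 : ℝ) ≤ X ^ 2 := by nlinarith
    have e2 : (4 : ℝ) ≤ (X : ℝ) ^ 2 * X ^ 2 := by nlinarith
    rw [e, mul_comm]
    gcongr
  have hinv : 1 / S ≤ 1 / (4 * (X : ℝ) ^ 2) := one_div_le_one_div_of_le (by positivity) hXS
  have hinv0 : 0 < 1 / S := by positivity
  have hq : 1 / (4 * (X : ℝ) ^ 2) = (1 / (X : ℝ) ^ 2) / 4 := by rw [div_div, mul_comm]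
  have hq2 : 1 / (2 * (X : ℝ) ^ 2) = (1 / (X : ℝ) ^ 2) / 2 := by rw [div_div, mul_comm]
  have hX2 : 0 < 1 / (X : ℝ) ^ 2 := by positivity
  have hXX : 1 / (X : ℝ) ^ 2 ≤ (1 / X) / 4 := by
    rw [div_div]
    apply one_div_le_one_div_of_le (by positivity)
    nlinarith
  have hX1 : 1 / (X : ℝ) ≤ 1 / 4 := one_div_le_one_div_of_le (by norm_num) hXr
  have hX1' : 0 < 1 / (X : ℝ) := by positivity
  set u : ℝ := 1 / (X : ℝ) ^ 2 with hu
  set v : ℝ := 1 / (X : ℝ) with hv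
  set w : ℝ := 1 / S with hw
  rw [hq] at hinv
  have hvX : v * X = 1 := by rw [hv]; field_simp
  have huX : u * (X : ℝ) ^ 2 = 1 := by rw [hu]; field_simp
  refine ⟨?_, ?_⟩
  · intro F hF
    have hτ : mn F.s (1 - w) ≤ X := by
      refine hF.trans (tau_le K Λ X S (by omega) hX (by omega) ?_ hS2)
      nlinarith
    refine ⟨?_, ?_, ?_⟩
    · intro k hk
      have hk1 := (h1 F (1 - w) (1 - v) X (by linarith) (by linarith) (by linarith) hτ).2 k
      have hk2 : Real.exp (2 * (X : ℝ) * (1 - v) / (1 - w - (1 - v))) ≤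
          Real.exp (4 * (X : ℝ) ^ 2) := by
        apply Real.exp_le_exp.2
        rw [div_le_iff₀ (by linarith)]
        have : v / 2 ≤ 1 - w - (1 - v) := by linarith
        calc 2 * (X : ℝ) * (1 - v) ≤ 2 * X * 1 := by gcongr; linarith
          _ = 4 * (X : ℝ) * ((v * X) / 2) := by rw [hvX]; ring
          _ = 4 * (X : ℝ) ^ 2 * (v / 2) := by ring
          _ ≤ 4 * (X : ℝ) ^ 2 * (1 - w - (1 - v)) := by gcongr
      have hk3 := bern X k (by omega) hk
      have hk4 : ‖cf F.f k‖ * v ≤ Real.exp (4 * (X : ℝ) ^ 2) :=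
        le_trans (by gcongr) (hk1.trans hk2)
      have hk5 : (X : ℝ) ≤ Real.exp ((X : ℝ) ^ 2) := by
        have := Real.add_one_le_exp ((X : ℝ) ^ 2)
        nlinarith
      calc ‖cf F.f k‖ = (‖cf F.f k‖ * v) * X := by rw [mul_assoc, hvX, mul_one]
        _ ≤ Real.exp (4 * (X : ℝ) ^ 2) * Real.exp ((X : ℝ) ^ 2) := by gcongr
        _ = Real.exp (5 * (X : ℝ) ^ 2) := by rw [← Real.exp_add]; ring_nf
    · intro k
      rw [hq2]
      have hk1 := (h1 F (1 - w) (1 - u / 2) X (by linarith) (by linarith) (by linarith) hτ).2 k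
      refine hk1.trans (Real.exp_le_exp.2 ?_)
      rw [div_le_iff₀ (by linarith)]
      have : u / 4 ≤ 1 - w - (1 - u / 2) := by linarith
      calc 2 * (X : ℝ) * (1 - u / 2) ≤ 2 * X * 1 := by gcongr; linarith
        _ = 8 * (X : ℝ) * ((u * X ^ 2) / 4) := by rw [huX]; ring
        _ = 8 * (X : ℝ) ^ 3 * (u / 4) := by ring
        _ ≤ 8 * (X : ℝ) ^ 3 * (1 - w - (1 - u / 2)) := by gcongr
    · intro l hl
      refine ⟨rad_G _ (rad_gg F) l, ?_⟩
      intro x hx
      have hs := (h1 F (1 - w) (1 - v) X (by linarith) (by linarith) (by linarith) hτ).1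
      have hg : ∀ n : ℕ, ‖PowerSeries.coeff n (toC (gg F.s))‖ * (1 - w) ^ n ≤
          2 * (X : ℝ) * (n + 1) := by
        intro n
        rw [coeff_toC, gg, PowerSeries.coeff_mk, Complex.norm_intCast]
        push_cast
        rw [abs_neg]
        refine (hs n).trans ?_
        nlinarith
      have hM := h2 (toC (gg F.s)) X (1 - w) hX0.le (by linarith) hg l
      have hE := h3.2 ((1 + 2 * (X : ℝ)) ^ l) (1 - w) (1 - u) (2 * l) _ x (by positivity)
        (by linarith) (by linarith) hM hx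
      refine hE.trans ?_
      have hd : u / 2 ≤ 1 - (1 - u) / (1 - w) := by
        have hw1 : (0 : ℝ) < 1 - w := by linarith
        have hw2 : 1 - (1 - u) / (1 - w) = (u - w) / (1 - w) := by
          field_simp
          ring
        rw [hw2, le_div_iff₀ hw1]
        nlinarith
      have hd' : 1 / (1 - (1 - u) / (1 - w)) ^ (2 * l + 1) ≤ ((X : ℝ) ^ 3) ^ (2 * l + 1) := by
        have hd0 : 0 < 1 - (1 - u) / (1 - w) := lt_of_lt_of_le (by linarith) hd
        rw [← one_div_pow]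
        refine pow_le_pow_left₀ (by positivity) ?_ _
        rw [div_le_iff₀ hd0]
        calc (1 : ℝ) = (u * X ^ 2) := huX.symm
          _ = 2 * (X : ℝ) ^ 2 * (u / 2) := by ring
          _ ≤ (X : ℝ) ^ 3 * (u / 2) := by
            gcongr
            nlinarith
          _ ≤ _ := by gcongr
      have hf1 : ((2 * l).factorial : ℝ) ≤ (X : ℝ) ^ (2 * B).factorial := by
        have e1 : (2 * l).factorial ≤ (2 * B).factorial := Nat.factorial_le (by omega)
        have e2 : (2 * B).factorial < 2 ^ (2 * B).factorial := Nat.lt_two_pow_self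
        have e3 : 2 ^ (2 * B).factorial ≤ X ^ (2 * B).factorial :=
          Nat.pow_le_pow_left (by omega) _
        exact_mod_cast e1.trans (e2.le.trans e3)
      have hf2 : (1 + 2 * (X : ℝ)) ^ l ≤ (X : ℝ) ^ (2 * B) := by
        calc (1 + 2 * (X : ℝ)) ^ l ≤ ((X : ℝ) ^ 2) ^ l := by
              gcongr
              nlinarith
          _ = (X : ℝ) ^ (2 * l) := by rw [← pow_mul]
          _ ≤ (X : ℝ) ^ (2 * B) := pow_le_pow_right₀ (by linarith) (by omega)
      have hf3 : ((X : ℝ) ^ 3) ^ (2 * l + 1) ≤ (X : ℝ) ^ (3 * (2 * B + 1)) := by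
        rw [← pow_mul]
        exact pow_le_pow_right₀ (by linarith) (by omega)
      have hd0 : 0 < 1 - (1 - u) / (1 - w) := lt_of_lt_of_le (by linarith) hd
      calc (1 + 2 * (X : ℝ)) ^ l * ((2 * l).factorial : ℝ) /
            (1 - (1 - u) / (1 - w)) ^ (2 * l + 1)
          = (1 + 2 * (X : ℝ)) ^ l * ((2 * l).factorial : ℝ) *
            (1 / (1 - (1 - u) / (1 - w)) ^ (2 * l + 1)) := by rw [mul_one_div]
        _ ≤ (X : ℝ) ^ (2 * B) * (X : ℝ) ^ (2 * B).factorial * (X : ℝ) ^ (3 * (2 * B + 1)) := by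
            refine mul_le_mul (mul_le_mul hf2 hf1 (by positivity) (by positivity))
              (hd'.trans hf3) (by positivity) (by positivity)
        _ = _ := by rw [← pow_add, ← pow_add]
  · intro W hW
    obtain ⟨hR, hG⟩ := hW
    have hcf : ∀ k, ‖cf W k‖ = ‖PowerSeries.coeff k (toC W)‖ := by
      intro k
      rw [coeff_toC]
      rfl
    have hΛr : (Λ : ℝ) ≤ X := by exact_mod_cast hΛX
    refine ⟨?_, ?_⟩
    · intro k hk
      have hk1 := h4 (toC W) (1 - v) ((X : ℝ) ^ Λ) hR (by linarith) (by linarith)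
        (fun x hx => hG X (by linarith) x hx.le) k
      have hk3 := bern X k (by omega) hk
      rw [← hcf] at hk1
      have hk4 : ‖cf W k‖ * v ≤ (X : ℝ) ^ Λ := le_trans (by gcongr) hk1
      have hk5 : (X : ℝ) ≤ Real.exp (X : ℝ) := by
        have := Real.add_one_le_exp (X : ℝ)
        linarith
      calc ‖cf W k‖ = (‖cf W k‖ * v) * X := by rw [mul_assoc, hvX, mul_one]
        _ ≤ (X : ℝ) ^ Λ * X := by gcongr
        _ = (X : ℝ) ^ (Λ + 1) := (pow_succ _ _).symm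
        _ ≤ Real.exp (X : ℝ) ^ (Λ + 1) := by gcongr
        _ = Real.exp ((Λ + 1 : ℕ) * X) := by rw [Real.exp_nat_mul]
        _ ≤ Real.exp (5 * (X : ℝ) ^ 2) := by
          apply Real.exp_le_exp.2
          push_cast
          nlinarith
    · intro k
      have hk1 := h4 (toC W) (1 - 1 / (2 * (X : ℝ) ^ 2)) ((2 * (X : ℝ) ^ 2) ^ Λ) hR
        (by rw [hq2]; linarith) (by rw [hq2]; linarith)
        (fun x hx => hG (2 * (X : ℝ) ^ 2) (by nlinarith) x hx.le) k
      rw [← hcf] at hk1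
      refine hk1.trans ?_
      have hk5 : 2 * (X : ℝ) ^ 2 ≤ Real.exp (2 * (X : ℝ) ^ 2) := by
        have := Real.add_one_le_exp (2 * (X : ℝ) ^ 2)
        linarith
      calc (2 * (X : ℝ) ^ 2) ^ Λ ≤ Real.exp (2 * (X : ℝ) ^ 2) ^ Λ := by gcongr
        _ = Real.exp ((Λ : ℕ) * (2 * (X : ℝ) ^ 2)) := by rw [Real.exp_nat_mul]
        _ ≤ Real.exp (8 * (X : ℝ) ^ 3) := by
          apply Real.exp_le_exp.2
          calc (Λ : ℝ) * (2 * (X : ℝ) ^ 2) ≤ X * (2 * (X : ℝ) ^ 2) := by gcongr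
            _ ≤ 8 * (X : ℝ) ^ 3 := by
              have : (0 : ℝ) ≤ (X : ℝ) ^ 3 := by positivity
              nlinarith

end Pool.Agent.H603.EG
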